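import Pool.Agent.H998_TS.Full

set_option autoImplicit false

/-! The weighted moments of the difference: final form. -/

namespace Pool.Agent.H998_TS

open Finset Filter MeasureTheory
open Pool.Agent.W184.NZ
open Pool.Agent.H306R2.SM (om cl Yf)

lemma pow_small {q : ℝ} (hq : q < 1) (C : ℝ) : ∀ᶠ T : ℝ in atTop, C * (T ^ q * (1 + Real.log T ^ 4)) ≤ T := by
  have h1 := (isLittleO_log_rpow_rpow_atTop (4:ℝ) (show 0 < (1 - q) / 2 by linarith)).def (show (0:ℝ) < 1 by norm_num)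
  have h2 : Tendsto (fun T : ℝ => T ^ ((1 - q) / 2)) atTop atTop := tendsto_rpow_atTop (by linarith)
  filter_upwards [h1, h2.eventually_ge_atTop (2 * |C| + 1), eventually_ge_atTop 1] with T h1 h2 hT
  have hT0 : 0 < T := by linarith
  have hL := Real.log_nonneg hT
  rw [Real.norm_of_nonneg (by positivity), Real.norm_of_nonneg (by positivity), one_mul] at h1
  have e4 : Real.log T ^ (4:ℝ) = Real.log T ^ 4 := by
    rw [← Real.rpow_natCast]; norm_num
  rw [e4] at h1
  set P := T ^ ((1 - q) / 2) with hP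
  have hP1 : 1 ≤ P := by linarith [abs_nonneg C]
  have e : T ^ q * (P * P) = T := by
    rw [hP, ← Real.rpow_add hT0, ← Real.rpow_add hT0]
    rw [show q + ((1 - q) / 2 + (1 - q) / 2) = 1 by ring, Real.rpow_one]
  have hTq : 0 < T ^ q := Real.rpow_pos_of_pos hT0 q
  calc C * (T ^ q * (1 + Real.log T ^ 4)) ≤ |C| * (T ^ q * (P + P)) := by
        refine mul_le_mul (le_abs_self C) ?_ (by positivity) (abs_nonneg C)
        refine mul_le_mul_of_nonneg_left ?_ hTq.le
        linarith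
    _ = T ^ q * (2 * |C| * P) := by ring
    _ ≤ T ^ q * (P * P) := by
        refine mul_le_mul_of_nonneg_left ?_ hTq.le
        refine mul_le_mul_of_nonneg_right ?_ (by linarith)
        linarith
    _ = T := e

lemma yy_pow {η T : ℝ} (hT : 1 ≤ T) {k : ℕ} {e : ℝ} (h : k * η ≤ e) : yy η T ^ k ≤ T ^ e := by
  have hT0 : 0 < T := by linarith
  unfold yy
  rw [← Real.exp_nat_mul, Real.rpow_def_of_pos hT0]
  refine Real.exp_le_exp.mpr ?_
  have := mul_le_mul_of_nonneg_right h (Real.log_nonneg hT)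
  linarith

lemma yy_one {η T : ℝ} (hT : 1 ≤ T) (hη : 0 < η) : 1 ≤ yy η T := by
  unfold yy
  exact Real.one_le_exp (mul_nonneg hη.le (Real.log_nonneg hT))

lemma z4c : Continuous fun t : ℝ => ‖riemannZeta (cl t)‖ ^ 4 := zc.pow 4

/-- left of the origin -/
lemma piece_neg {β : ℝ} (h0 : 0 < β) (k : ℕ) {η : ℝ} (hη : 0 < η) (hk : k * η ≤ 1 / 16) (X : ℝ) (hX : 0 ≤ X) :
    ∀ᶠ T : ℝ in atTop, ∫ t in (-X)..0, FF β k (yy η T) t ≤ T := by
  obtain ⟨C, hC, h⟩ := FF_pt h0 (lt_add_one β) k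
  set M : ℝ := 1 + (24 * (1 + X) ^ 2) ^ (β + 1) with hM
  have hM0 : 0 < M := by positivity
  filter_upwards [pow_small (q := 1 / 16) (by norm_num) (X * (C * M)), eventually_ge_atTop 1] with T h1 hT
  have hL := Real.log_nonneg hT
  have hy1 := yy_one hT hη
  have hyk := yy_pow hT hk
  have h2 : ∫ t in (-X)..0, FF β k (yy η T) t ≤ ∫ _t in (-X)..0, C * (M * T ^ ((1:ℝ) / 16)) := by
    refine intervalIntegral.integral_mono_on (by linarith) (FF_int h0 k hy1 _ _) intervalIntegrable_const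
      fun t ht => ?_
    refine (h _ t hy1).trans (mul_le_mul_of_nonneg_left ?_ hC.le)
    refine mul_le_mul ?_ hyk (by positivity) hM0.le
    rw [hM]
    refine add_le_add_right ?_ 1
    refine Real.rpow_le_rpow (norm_nonneg _) ?_ (by linarith)
    have h3 : ‖riemannZeta (cl t)‖ = Pool.Agent.TH806.Xz |t| := Pool.Agent.TH806.Xz_abs t
    rw [h3]
    refine (Pool.Agent.TH806.Xz_le (abs_nonneg t)).trans ?_
    have h4 : |t| ≤ X := by rw [abs_le]; exact ⟨ht.1, by linarith [ht.2]⟩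
    have := abs_nonneg t
    gcongr
  rw [intervalIntegral.integral_const, smul_eq_mul, zero_sub, neg_neg] at h2
  refine h2.trans (le_trans ?_ h1)
  have hT16 : 0 ≤ T ^ ((1:ℝ) / 16) := Real.rpow_nonneg (by linarith) _
  calc X * (C * (M * T ^ ((1:ℝ) / 16))) = X * (C * M) * (T ^ ((1:ℝ) / 16) * 1) := by ring
    _ ≤ _ := by
      refine mul_le_mul_of_nonneg_left ?_ (by positivity)
      refine mul_le_mul_of_nonneg_left ?_ hT16
      have : 0 ≤ Real.log T ^ 4 := by positivity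
      linarith

/-- the beginning of the interval -/
lemma piece_low {β : ℝ} (h0 : 0 < β) (h4 : β < 4) (k : ℕ) {η : ℝ} (hη : 0 < η) (hk : k * η ≤ 1 / 16) :
    ∀ᶠ T : ℝ in atTop, ∫ t in (0:ℝ)..(T ^ ((3:ℝ)/4)), FF β k (yy η T) t ≤ T := by
  obtain ⟨C, hC, h⟩ := FF_pt h0 h4 k
  obtain ⟨C4, hC4, hf⟩ := four_all
  have ht : Tendsto (fun T : ℝ => T ^ ((3:ℝ)/4)) atTop atTop := tendsto_rpow_atTop (by norm_num)
  filter_upwards [pow_small (q := 13 / 16) (by norm_num) (C * (1 + C4)), ht.eventually hf, eventually_ge_atTop 1]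
    with T h1 hf hT
  have hT0 : 0 < T := by linarith
  have hL := Real.log_nonneg hT
  have hy1 := yy_one hT hη
  have hyk := yy_pow hT hk
  set A : ℝ := T ^ ((3:ℝ)/4) with hA
  have hA0 : 0 < A := by positivity
  have hA1 : 1 ≤ A := Real.one_le_rpow hT (by norm_num)
  have hAT : A ≤ T := by
    have : T ^ ((3:ℝ)/4) ≤ T ^ (1:ℝ) := Real.rpow_le_rpow_of_exponent_le hT (by norm_num)
    rwa [Real.rpow_one] at this
  have hc : Continuous fun t : ℝ => 1 + ‖riemannZeta (cl t)‖ ^ 4 := continuous_const.add (zc.pow 4)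
  have h2 : ∫ t in (0:ℝ)..A, FF β k (yy η T) t ≤
      ∫ t in (0:ℝ)..A, (C * yy η T ^ k) * (1 + ‖riemannZeta (cl t)‖ ^ 4) := by
    refine intervalIntegral.integral_mono_on hA0.le (FF_int h0 k hy1 _ _)
      ((continuous_const.mul hc).intervalIntegrable _ _) fun t _ => ?_
    refine (h _ t hy1).trans (le_of_eq ?_)
    have : ‖riemannZeta (cl t)‖ ^ (4:ℝ) = ‖riemannZeta (cl t)‖ ^ 4 := by
      rw [← Real.rpow_natCast]; norm_num
    rw [this]; ring
  have h3 : ∫ t in (0:ℝ)..A, (C * yy η T ^ k) * (1 + ‖riemannZeta (cl t)‖ ^ 4) =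
      (C * yy η T ^ k) * (A + ∫ t in (0:ℝ)..A, ‖riemannZeta (cl t)‖ ^ 4) := by
    rw [intervalIntegral.integral_const_mul, intervalIntegral.integral_add intervalIntegrable_const
      (z4c.intervalIntegrable _ _), intervalIntegral.integral_const]
    simp
  have hLA : Real.log A ≤ Real.log T := Real.log_le_log hA0 hAT
  have hLA0 : 0 ≤ Real.log A := Real.log_nonneg hA1
  have h5 : A + ∫ t in (0:ℝ)..A, ‖riemannZeta (cl t)‖ ^ 4 ≤ (1 + C4) * (A * (1 + Real.log T ^ 4)) := by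
    have h6 : C4 * (A * Real.log A ^ 4) ≤ C4 * (A * Real.log T ^ 4) := by gcongr
    have h7 : 0 ≤ A * Real.log T ^ 4 := by positivity
    have h8 : 0 ≤ C4 * A := by positivity
    linarith
  refine (h2.trans h3.le).trans (le_trans ?_ h1)
  have e : T ^ ((13:ℝ) / 16) = T ^ ((1:ℝ) / 16) * A := by
    rw [hA, ← Real.rpow_add hT0]; norm_num
  calc (C * yy η T ^ k) * (A + ∫ t in (0:ℝ)..A, ‖riemannZeta (cl t)‖ ^ 4) ≤
      (C * T ^ ((1:ℝ) / 16)) * ((1 + C4) * (A * (1 + Real.log T ^ 4))) := by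
        have : 0 ≤ ∫ t in (0:ℝ)..A, ‖riemannZeta (cl t)‖ ^ 4 :=
          intervalIntegral.integral_nonneg hA0.le fun t _ => by positivity
        gcongr
    _ = _ := by rw [e]; ring

/-- the end of the interval -/
lemma piece_high {β : ℝ} (h0 : 0 < β) (h4 : β < 4) (k : ℕ) {η : ℝ} (hη : 0 < η) (hk : k * η ≤ (4 - β) / 64)
    (X : ℝ) (hX : 0 ≤ X) :
    ∀ᶠ T : ℝ in atTop, ∫ t in T..(T + X), FF β k (yy η T) t ≤ T := by
  set b : ℝ := (β + 4) / 2 with hb
  have hb1 : β < b := by rw [hb]; linarith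
  have hb4 : b < 4 := by rw [hb]; linarith
  have hb0 : 0 < b := by linarith
  obtain ⟨C, hC, h⟩ := FF_pt h0 hb1 k
  obtain ⟨C4, hC4, hf⟩ := four_all
  have ht : Tendsto (fun T : ℝ => 2 * T) atTop atTop := tendsto_id.const_mul_atTop (by norm_num)
  have hq : (4 - β) / 64 + b / 4 < 1 := by rw [hb]; linarith
  filter_upwards [pow_small hq (C * (2 * X + 32 * C4)), ht.eventually hf, eventually_ge_atTop 2,
    eventually_ge_atTop X] with T h1 hf hT hTX
  have hT0 : 0 < T := by linarith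
  have hT1 : 1 ≤ T := by linarith
  have hL := Real.log_nonneg hT1
  have hy1 := yy_one hT1 hη
  have hyk := yy_pow hT1 hk
  set B : ℝ := T ^ (b / 4) with hB
  have hB1 : 1 ≤ B := Real.one_le_rpow hT1 (by linarith)
  have hxb : ∀ x : ℝ, 0 ≤ x → x ^ b ≤ B + (B / T) * x ^ 4 := by
    intro x hx
    rcases le_total x (T ^ ((1:ℝ) / 4)) with h' | h'
    · have : x ^ b ≤ B := by
        calc x ^ b ≤ (T ^ ((1:ℝ) / 4)) ^ b := Real.rpow_le_rpow hx h' hb0.le
          _ = B := by rw [← Real.rpow_mul hT0.le, hB]; congr 1; ring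
      have : 0 ≤ (B / T) * x ^ 4 := by positivity
      linarith
    · have hx0 : 0 < x := lt_of_lt_of_le (by positivity) h'
      have h5 : x ^ b ≤ (B / T) * x ^ 4 := by
        have e1 : x ^ b = x ^ (b - 4) * x ^ 4 := by
          rw [← Real.rpow_natCast, ← Real.rpow_add hx0]; congr 1; norm_num
        rw [e1]
        refine mul_le_mul_of_nonneg_right ?_ (by positivity)
        calc x ^ (b - 4) ≤ (T ^ ((1:ℝ) / 4)) ^ (b - 4) :=
              Real.rpow_le_rpow_of_nonpos (by positivity) h' (by linarith)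
          _ = B / T := by
              have e2 : T ^ (b / 4) / T = T ^ (b / 4 - 1) := by rw [Real.rpow_sub hT0, Real.rpow_one]
              rw [← Real.rpow_mul hT0.le, hB, e2]
              congr 1; ring
      linarith
  have hc : Continuous fun t : ℝ => (1 + B) + (B / T) * ‖riemannZeta (cl t)‖ ^ 4 :=
    continuous_const.add (continuous_const.mul (zc.pow 4))
  have h2 : ∫ t in T..(T + X), FF β k (yy η T) t ≤
      ∫ t in T..(T + X), (C * yy η T ^ k) * ((1 + B) + (B / T) * ‖riemannZeta (cl t)‖ ^ 4) := by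
    refine intervalIntegral.integral_mono_on (by linarith) (FF_int h0 k hy1 _ _)
      ((continuous_const.mul hc).intervalIntegrable _ _) fun t _ => ?_
    refine (h _ t hy1).trans ?_
    have h6 := hxb _ (norm_nonneg (riemannZeta (cl t)))
    have h7 : 0 ≤ C * yy η T ^ k := by positivity
    calc C * ((1 + ‖riemannZeta (cl t)‖ ^ b) * yy η T ^ k) =
        (C * yy η T ^ k) * (1 + ‖riemannZeta (cl t)‖ ^ b) := by ring
      _ ≤ _ := mul_le_mul_of_nonneg_left (by linarith) h7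
  have h3 : ∫ t in T..(T + X), (C * yy η T ^ k) * ((1 + B) + (B / T) * ‖riemannZeta (cl t)‖ ^ 4) =
      (C * yy η T ^ k) * (X * (1 + B) + (B / T) * ∫ t in T..(T + X), ‖riemannZeta (cl t)‖ ^ 4) := by
    have hcc : Continuous fun t : ℝ => (B / T) * ‖riemannZeta (cl t)‖ ^ 4 := continuous_const.mul z4c
    rw [intervalIntegral.integral_const_mul, intervalIntegral.integral_add intervalIntegrable_const
      (hcc.intervalIntegrable _ _), intervalIntegral.integral_const,
      intervalIntegral.integral_const_mul, smul_eq_mul]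
    congr 2
    ring
  have h8 : ∫ t in T..(T + X), ‖riemannZeta (cl t)‖ ^ 4 ≤ ∫ t in (0:ℝ)..(2 * T), ‖riemannZeta (cl t)‖ ^ 4 := by
    have c4 := zc.pow 4
    have e1 : (∫ t in (0:ℝ)..T, ‖riemannZeta (cl t)‖ ^ 4) + ∫ t in T..(T + X), ‖riemannZeta (cl t)‖ ^ 4 =
        ∫ t in (0:ℝ)..(T + X), ‖riemannZeta (cl t)‖ ^ 4 :=
      intervalIntegral.integral_add_adjacent_intervals (c4.intervalIntegrable _ _) (c4.intervalIntegrable _ _)
        (μ := volume)
    have e2 : (∫ t in (0:ℝ)..(T + X), ‖riemannZeta (cl t)‖ ^ 4) +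
        ∫ t in (T + X)..(2 * T), ‖riemannZeta (cl t)‖ ^ 4 = ∫ t in (0:ℝ)..(2 * T), ‖riemannZeta (cl t)‖ ^ 4 :=
      intervalIntegral.integral_add_adjacent_intervals (c4.intervalIntegrable _ _) (c4.intervalIntegrable _ _)
        (μ := volume)
    have p1 : 0 ≤ ∫ t in (0:ℝ)..T, ‖riemannZeta (cl t)‖ ^ 4 :=
      intervalIntegral.integral_nonneg hT0.le fun t _ => by positivity
    have p2 : 0 ≤ ∫ t in (T + X)..(2 * T), ‖riemannZeta (cl t)‖ ^ 4 :=
      intervalIntegral.integral_nonneg (by linarith) fun t _ => by positivity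
    linarith
  have hl2 : Real.log (2 * T) ≤ 2 * Real.log T := by
    rw [Real.log_mul (by norm_num) hT0.ne']
    have := Real.log_le_log (by norm_num) hT
    linarith
  have hl20 : 0 ≤ Real.log (2 * T) := Real.log_nonneg (by linarith)
  have h9 : (B / T) * ∫ t in T..(T + X), ‖riemannZeta (cl t)‖ ^ 4 ≤ 32 * C4 * (B * Real.log T ^ 4) := by
    calc (B / T) * ∫ t in T..(T + X), ‖riemannZeta (cl t)‖ ^ 4 ≤
        (B / T) * (C4 * (2 * T * (2 * Real.log T) ^ 4)) := by
          refine mul_le_mul_of_nonneg_left ((h8.trans hf).trans ?_) (by positivity)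
          gcongr
      _ = _ := by field_simp; ring
  have h10 : X * (1 + B) ≤ 2 * X * B := by nlinarith
  have h11 : X * (1 + B) + (B / T) * ∫ t in T..(T + X), ‖riemannZeta (cl t)‖ ^ 4 ≤
      (2 * X + 32 * C4) * (B * (1 + Real.log T ^ 4)) := by
    have c1 : 0 ≤ X * (B * Real.log T ^ 4) := by positivity
    have c2 : 0 ≤ C4 * B := by positivity
    linarith
  refine (h2.trans h3.le).trans (le_trans ?_ h1)
  have h12 : 0 ≤ ∫ t in T..(T + X), ‖riemannZeta (cl t)‖ ^ 4 :=
    intervalIntegral.integral_nonneg (by linarith) fun t _ => by positivity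
  calc (C * yy η T ^ k) * (X * (1 + B) + (B / T) * ∫ t in T..(T + X), ‖riemannZeta (cl t)‖ ^ 4) ≤
      (C * T ^ ((4 - β) / 64)) * ((2 * X + 32 * C4) * (B * (1 + Real.log T ^ 4))) := by
        gcongr
    _ = _ := by rw [Real.rpow_add hT0, ← hB]; ring

/-- the estimate over `[x, T + x]` -/
theorem all {β : ℝ} (h0 : 0 < β) (h4 : β < 4) (k : ℕ) : ∃ η1 : ℝ, 0 < η1 ∧ ∀ η : ℝ, 0 < η → η ≤ η1 →
    ∃ C : ℝ, 0 < C ∧ ∀ x : ℝ, ∀ᶠ T : ℝ in atTop,
      ∫ t in x..(T + x), FF β k (yy η T) t ≤ C * (T * Real.log T ^ (β ^ 2 / 4)) := by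
  obtain ⟨η1, hη1, H⟩ := mid h0 h4 k
  have hk0 : (0:ℝ) < (k:ℝ) + 1 := by positivity
  have hβ : 0 < 4 - β := by linarith
  refine ⟨min η1 (min ((4 - β) / 64 / ((k:ℝ) + 1)) (1 / 16 / ((k:ℝ) + 1))), by positivity, fun η hη hηle => ?_⟩
  have e1 : η ≤ η1 := hηle.trans (min_le_left _ _)
  have e2 : η ≤ (4 - β) / 64 / ((k:ℝ) + 1) := hηle.trans ((min_le_right _ _).trans (min_le_left _ _))
  have e3 : η ≤ 1 / 16 / ((k:ℝ) + 1) := hηle.trans ((min_le_right _ _).trans (min_le_right _ _))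
  rw [le_div_iff₀ hk0] at e2 e3
  have k2 : k * η ≤ (4 - β) / 64 := by nlinarith
  have k3 : k * η ≤ 1 / 16 := by nlinarith
  obtain ⟨C, hC, hm⟩ := H η hη e1
  refine ⟨C + 3, by positivity, fun x => ?_⟩
  filter_upwards [hm, piece_neg h0 k hη k3 |x| (abs_nonneg x), piece_low h0 h4 k hη k3,
    piece_high h0 h4 k hη k2 |x| (abs_nonneg x), eventually_ge_atTop 1,
    Real.tendsto_log_atTop.eventually_ge_atTop 1, eventually_ge_atTop |x|] with T m1 m2 m3 m4 hT hL hTx
  have hT0 : 0 < T := by linarith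
  have hy1 := yy_one hT hη
  set A : ℝ := T ^ ((3:ℝ)/4) with hA
  set f := FF β k (yy η T) with hf
  have hi : ∀ a b : ℝ, IntervalIntegrable f volume a b := fun a b => FF_int h0 k hy1 a b
  have hx1 := neg_abs_le x
  have hx2 := le_abs_self x
  have s1 := intervalIntegral.integral_add_adjacent_intervals (hi (-|x|) 0) (hi 0 A)
  have s2 := intervalIntegral.integral_add_adjacent_intervals (hi (-|x|) A) (hi A T)
  have s3 := intervalIntegral.integral_add_adjacent_intervals (hi (-|x|) T) (hi T (T + |x|))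
  have s4 := intervalIntegral.integral_add_adjacent_intervals (hi (-|x|) x) (hi x (T + x))
  have s5 := intervalIntegral.integral_add_adjacent_intervals (hi (-|x|) (T + x)) (hi (T + x) (T + |x|))
  have n1 : 0 ≤ ∫ t in (-|x|)..x, f t := intervalIntegral.integral_nonneg (by linarith) fun t _ => FF_nonneg _ _ _ _
  have n2 : 0 ≤ ∫ t in (T + x)..(T + |x|), f t :=
    intervalIntegral.integral_nonneg (by linarith) fun t _ => FF_nonneg _ _ _ _
  have hP : 1 ≤ Real.log T ^ (β ^ 2 / 4) := Real.one_le_rpow hL (by positivity)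
  have hTP : T ≤ T * Real.log T ^ (β ^ 2 / 4) := le_mul_of_one_le_right hT0.le hP
  linarith

end Pool.Agent.H998_TS
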