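import Pool.Agent.H998_TS.Mid
import Pool.Agent.TH806.Fin

set_option autoImplicit false

/-! The weighted moments of the difference over the whole interval. -/

namespace Pool.Agent.H998_TS

open Finset Filter MeasureTheory
open Pool.Agent.W184.NZ
open Pool.Agent.H306R2.SM (om cl Yf)

lemma gf_zero_ge (K R : ℕ) (z : ℂ) : 1 ≤ gf K 0 R z := by
  have h : NK K 0 z = 1 := by
    rw [NK_eq]
    rw [sum_eq_single 0]
    · simp
    · intro b _ hb
      simp [zero_pow hb]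
    · intro h; simp at h
  unfold gf
  rw [h]
  have : 0 ≤ (‖z‖ / R) ^ (2 * R) := by positivity
  simp
  exact this

lemma gp_zero_ge (J Rs : ℕ) (I : ℕ → Finset ℕ) (t : ℝ) : 1 ≤ gp J 0 (RR Rs) I t := by
  unfold gp
  calc (1:ℝ) = ∏ _i ∈ range J, (1:ℝ) := by rw [prod_const_one]
    _ ≤ _ := prod_le_prod (fun _ _ => zero_le_one) fun i _ => gf_zero_ge _ _ _

/-- fourth moment over `[T^(3/4), T]` -/
theorem four_mid : ∃ C : ℝ, 0 < C ∧ ∀ᶠ T : ℝ in atTop,
    ∫ t in (T ^ ((3:ℝ)/4))..T, ‖riemannZeta (cl t)‖ ^ 4 ≤ C * (T * Real.log T ^ 4) := by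
  obtain ⟨c, hc, hBS⟩ := BS_ex
  obtain ⟨η0, hη0, H⟩ := Pool.Agent.Y755.onl4 (z0 := 144) le_rfl
  obtain ⟨d, hd, hB⟩ := hBS (η0 / 2) (by positivity)
  obtain ⟨C, hC, h1⟩ := H c d 1 hc hd le_rfl (η0 / 2) (by positivity) (by push_cast; linarith)
  refine ⟨C, hC, ?_⟩
  filter_upwards [h1, hB, eventually_ge_atTop 1] with T h1 hB hT1
  obtain ⟨J, hJ⟩ := hB
  obtain ⟨hJ0, hJ1, hJ2, hJ3⟩ := hJ
  have h2 := h1 J (II (yy (η0 / 2) T)) hJ1 (cover hJ0 hJ2) hJ3 1 zero_le_one le_rfl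
  have e : ((1:ℝ) + 1) ^ 2 = ((4:ℕ):ℝ) := by norm_num
  rw [e, Real.rpow_natCast, show (-1 + 1 : ℝ) = 0 by norm_num] at h2
  refine le_trans ?_ h2
  have hAT : T ^ ((3:ℝ)/4) ≤ T := by
    have : T ^ ((3:ℝ)/4) ≤ T ^ (1:ℝ) := Real.rpow_le_rpow_of_exponent_le hT1 (by norm_num)
    rwa [Real.rpow_one] at this
  refine intervalIntegral.integral_mono_on hAT ((zc.pow 4).intervalIntegrable _ _)
    (((zc.pow 4).mul (gp_cII (by linarith) hJ1 _ 1)).intervalIntegrable _ _) fun t _ => ?_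
  exact le_mul_of_one_le_right (by positivity) (gp_zero_ge _ _ _ _)

lemma four_iter (n : ℕ) : ∃ C : ℝ, 0 < C ∧ ∀ᶠ T : ℝ in atTop,
    ∫ t in (T ^ ((3:ℝ)/4) ^ n)..T, ‖riemannZeta (cl t)‖ ^ 4 ≤ C * (T * Real.log T ^ 4) := by
  obtain ⟨C1, hC1, h1⟩ := four_mid
  induction n with
  | zero =>
    refine ⟨1, one_pos, ?_⟩
    filter_upwards [eventually_ge_atTop 1] with T hT
    rw [pow_zero, Real.rpow_one, intervalIntegral.integral_same]
    have := Real.log_nonneg hT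
    positivity
  | succ n ih =>
    obtain ⟨C, hC, h⟩ := ih
    refine ⟨C + C1, by positivity, ?_⟩
    have hq : 0 < ((3:ℝ)/4) ^ n := by positivity
    have ht : Tendsto (fun T : ℝ => T ^ ((3:ℝ)/4) ^ n) atTop atTop := tendsto_rpow_atTop hq
    filter_upwards [h, ht.eventually h1, eventually_ge_atTop 1] with T g1 g2 hT1
    have hT0 : 0 < T := by linarith
    set B : ℝ := T ^ ((3:ℝ)/4) ^ n with hB
    have hBT : B ≤ T := by
      have : B ≤ T ^ (1:ℝ) := Real.rpow_le_rpow_of_exponent_le hT1 (pow_le_one₀ (by norm_num) (by norm_num))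
      rwa [Real.rpow_one] at this
    have hB1 : 1 ≤ B := Real.one_le_rpow hT1 hq.le
    have e : T ^ ((3:ℝ)/4) ^ (n + 1) = B ^ ((3:ℝ)/4) := by
      rw [hB, ← Real.rpow_mul hT0.le, pow_succ]
    rw [e]
    have hc := (zc.pow 4)
    have e2 : (∫ t in (B ^ ((3:ℝ)/4))..B, ‖riemannZeta (cl t)‖ ^ 4) + ∫ t in B..T, ‖riemannZeta (cl t)‖ ^ 4 =
      ∫ t in (B ^ ((3:ℝ)/4))..T, ‖riemannZeta (cl t)‖ ^ 4 :=
      intervalIntegral.integral_add_adjacent_intervals (hc.intervalIntegrable (B ^ ((3:ℝ)/4)) B)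
      (hc.intervalIntegrable B T) (μ := volume)
    rw [← e2]
    have hL : 0 ≤ Real.log B := Real.log_nonneg hB1
    have hLL : Real.log B ≤ Real.log T := Real.log_le_log (by linarith) hBT
    have g3 : C1 * (B * Real.log B ^ 4) ≤ C1 * (T * Real.log T ^ 4) := by gcongr
    linarith

/-- the fourth moment -/
theorem four_all : ∃ C : ℝ, 0 < C ∧ ∀ᶠ T : ℝ in atTop,
    ∫ t in (0:ℝ)..T, ‖riemannZeta (cl t)‖ ^ 4 ≤ C * (T * Real.log T ^ 4) := by
  obtain ⟨C, hC, h⟩ := four_iter 10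
  refine ⟨C + 24 ^ 4 * 2 ^ 8, by positivity, ?_⟩
  filter_upwards [h, eventually_ge_atTop 1, Real.tendsto_log_atTop.eventually_ge_atTop 1] with T h1 hT1 hL
  have hT0 : 0 < T := by linarith
  set B : ℝ := T ^ ((3:ℝ)/4) ^ 10 with hB
  have hB0 : 0 < B := by positivity
  have hB1 : 1 ≤ B := Real.one_le_rpow hT1 (by positivity)
  have hB16 : B ≤ T ^ ((1:ℝ)/16) := Real.rpow_le_rpow_of_exponent_le hT1 (by norm_num)
  have hc := (zc.pow 4)
  have e2 : (∫ t in (0:ℝ)..B, ‖riemannZeta (cl t)‖ ^ 4) + ∫ t in B..T, ‖riemannZeta (cl t)‖ ^ 4 =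
      ∫ t in (0:ℝ)..T, ‖riemannZeta (cl t)‖ ^ 4 :=
    intervalIntegral.integral_add_adjacent_intervals (hc.intervalIntegrable 0 B)
    (hc.intervalIntegrable B T) (μ := volume)
  have h2 : ∫ t in (0:ℝ)..B, ‖riemannZeta (cl t)‖ ^ 4 ≤ 24 ^ 4 * 2 ^ 8 * (T * Real.log T ^ 4) := by
    have h3 : ∫ t in (0:ℝ)..B, ‖riemannZeta (cl t)‖ ^ 4 ≤ ∫ _t in (0:ℝ)..B, 24 ^ 4 * (2 * B) ^ 8 := by
      refine intervalIntegral.integral_mono_on hB0.le (hc.intervalIntegrable _ _) intervalIntegrable_const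
        fun t ht => ?_
      have h4 : ‖riemannZeta (cl t)‖ ≤ 24 * (1 + t) ^ 2 := Pool.Agent.TH806.Xz_le ht.1
      have h5 : (1 + t) ^ 2 ≤ (2 * B) ^ 2 := pow_le_pow_left₀ (by linarith [ht.1]) (by linarith [ht.2]) 2
      calc ‖riemannZeta (cl t)‖ ^ 4 ≤ (24 * (2 * B) ^ 2) ^ 4 :=
            pow_le_pow_left₀ (norm_nonneg _) (h4.trans (by linarith)) 4
        _ = _ := by ring
    refine h3.trans ?_
    rw [intervalIntegral.integral_const, smul_eq_mul, sub_zero]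
    have h6 : B ^ 9 ≤ T := by
      calc B ^ 9 ≤ (T ^ ((1:ℝ)/16)) ^ 9 := pow_le_pow_left₀ hB0.le hB16 9
        _ = T ^ ((9:ℝ)/16) := by rw [← Real.rpow_natCast, ← Real.rpow_mul hT0.le]; norm_num
        _ ≤ T ^ (1:ℝ) := Real.rpow_le_rpow_of_exponent_le hT1 (by norm_num)
        _ = T := Real.rpow_one T
    have h7 : T ≤ T * Real.log T ^ 4 := le_mul_of_one_le_right hT0.le (one_le_pow₀ hL)
    calc B * (24 ^ 4 * (2 * B) ^ 8) = 24 ^ 4 * 2 ^ 8 * B ^ 9 := by ring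
      _ ≤ 24 ^ 4 * 2 ^ 8 * (T * Real.log T ^ 4) := mul_le_mul_of_nonneg_left (h6.trans h7) (by norm_num)
  linarith

/-- a crude pointwise bound -/
lemma FF_pt {β b : ℝ} (h0 : 0 < β) (hb : β < b) (k : ℕ) : ∃ C : ℝ, 0 < C ∧ ∀ y t : ℝ, 1 ≤ y →
    FF β k y t ≤ C * ((1 + ‖riemannZeta (cl t)‖ ^ b) * y ^ k) := by
  obtain ⟨C, hC, hl⟩ := pow_log_bound h0 hb k
  obtain ⟨C', hC', hl'⟩ := pow_log_bound h0 hb 0
  refine ⟨2 ^ k * (C + C' * 2 ^ k), by positivity, fun y t hy => ?_⟩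
  unfold FF
  set x := ‖riemannZeta (cl t)‖ with hx
  have hx0 : 0 ≤ x := norm_nonneg _
  have hy0 : 0 < y := by linarith
  rcases hx0.eq_or_lt with h | h
  · rw [← h, Real.zero_rpow h0.ne', zero_mul]
    have : 0 ≤ (0:ℝ) ^ b := Real.rpow_nonneg le_rfl _
    positivity
  have h1 := hl x h
  have h2 := hl' x h
  rw [Real.rpow_zero] at h1 h2
  rw [pow_zero, mul_one] at h2
  have hs := PS_le hy t
  have h3 : |Real.log x - PS y t| ^ k ≤ 2 ^ k * (|Real.log x| ^ k + (2 * y) ^ k) := by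
    have h4 : |Real.log x - PS y t| ≤ |Real.log x| + 2 * y := (abs_sub _ _).trans (by linarith)
    have h5 : |Real.log x| + 2 * y ≤ 2 * max |Real.log x| (2 * y) := by
      linarith [le_max_left |Real.log x| (2 * y), le_max_right |Real.log x| (2 * y)]
    calc _ ≤ (2 * max |Real.log x| (2 * y)) ^ k := pow_le_pow_left₀ (abs_nonneg _) (h4.trans h5) k
      _ = 2 ^ k * (max |Real.log x| (2 * y)) ^ k := mul_pow _ _ _
      _ ≤ _ := by
        refine mul_le_mul_of_nonneg_left ?_ (by positivity)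
        have b1 : 0 ≤ |Real.log x| ^ k := by positivity
        have b2 : 0 ≤ (2 * y) ^ k := by positivity
        rcases max_choice |Real.log x| (2 * y) with h' | h'
        · rw [h']; linarith
        · rw [h']; linarith
  have hyk : 1 ≤ y ^ k := one_le_pow₀ hy
  set W := 1 + x ^ b with hW
  have hW0 : 0 < W := by positivity
  have hxβ : 0 ≤ x ^ β := by positivity
  calc x ^ β * |Real.log x - PS y t| ^ k ≤ x ^ β * (2 ^ k * (|Real.log x| ^ k + (2 * y) ^ k)) :=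
        mul_le_mul_of_nonneg_left h3 hxβ
    _ = 2 ^ k * (x ^ β * |Real.log x| ^ k + x ^ β * (2 ^ k * y ^ k)) := by rw [mul_pow]; ring
    _ ≤ 2 ^ k * (C * W * y ^ k + C' * W * (2 ^ k * y ^ k)) := by
        refine mul_le_mul_of_nonneg_left (add_le_add ?_ ?_) (by positivity)
        · exact h1.trans (le_mul_of_one_le_right (by positivity) hyk)
        · exact mul_le_mul_of_nonneg_right h2 (by positivity)
    _ = _ := by ring

lemma FF_meas (β : ℝ) (k : ℕ) (y : ℝ) : Measurable (FF β k y) := by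
  unfold FF
  have h1 := zc.measurable
  have h2 := (PS_cont y).measurable
  exact (h1.pow_const β).mul (((Real.measurable_log.comp h1).sub h2).abs.pow_const k)

lemma zb_cont {b : ℝ} (hb : 0 < b) : Continuous fun t : ℝ => ‖riemannZeta (cl t)‖ ^ b :=
  zc.rpow_const fun _ => Or.inr hb.le

lemma FF_int {β : ℝ} (h0 : 0 < β) (k : ℕ) {y : ℝ} (hy : 1 ≤ y) (a b : ℝ) :
    IntervalIntegrable (FF β k y) volume a b := by
  obtain ⟨C, hC, h⟩ := FF_pt h0 (lt_add_one β) k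
  have hc : Continuous fun t : ℝ => C * ((1 + ‖riemannZeta (cl t)‖ ^ (β + 1)) * y ^ k) :=
    continuous_const.mul ((continuous_const.add (zb_cont (by linarith))).mul continuous_const)
  refine (hc.intervalIntegrable a b).mono_fun (FF_meas β k y).aestronglyMeasurable ?_
  refine Eventually.of_forall fun t => ?_
  have h1 := h y t hy
  simp only []
  rw [Real.norm_of_nonneg (FF_nonneg _ _ _ _), Real.norm_of_nonneg ((FF_nonneg _ _ _ _).trans h1)]
  exact h1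

end Pool.Agent.H998_TS
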