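import Pool.Agent.H998_TS.Sum
import Pool.Agent.Y755.Onl4

set_option autoImplicit false

/-! The weighted moments of the difference over `[T^(3/4), T]`. -/

namespace Pool.Agent.H998_TS

open Finset Filter MeasureTheory
open Pool.Agent.W184.NZ
open Pool.Agent.H306R2.SM (om cl Yf)

/-- the length of the sum over the primes -/
noncomputable def yy (η T : ℝ) : ℝ := Real.exp (η * Real.log T)

/-- the integrand -/
noncomputable def FF (β : ℝ) (k : ℕ) (y t : ℝ) : ℝ :=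
  ‖riemannZeta (cl t)‖ ^ β * |Real.log ‖riemannZeta (cl t)‖ - PS y t| ^ k

lemma FF_nonneg (β : ℝ) (k : ℕ) (y t : ℝ) : 0 ≤ FF β k y t := by unfold FF; positivity

lemma gp_cII {c y : ℝ} {J : ℕ} (hy : 1 ≤ y) (h : Rg c J (II y) (bb y)) (a : ℝ) (Rs : ℕ) :
    Continuous fun t => gp J a (RR Rs) (II y) t := by
  have hP : ∀ i, ∀ p ∈ II y i, p.Prime := fun i p hp => (h.pr i p hp).1
  have := ev_re_cont (GP_Bd (Rs := Rs) hy h a)
  refine this.congr fun t => ?_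
  rw [ev_GP t J _ _ hP, Complex.ofReal_re]

/-- the system of blocks -/
def BS (c d η T : ℝ) (J : ℕ) : Prop :=
  144 ≤ yy η T ∧ Rg c J (II (yy η T)) (bb (yy η T)) ∧ bb (yy η T) J < 144 ∧
    |∑ i ∈ range J, vI (II (yy η T) i) - Real.log (Real.log T)| ≤ d

lemma BS_ex : ∃ c : ℝ, 0 ≤ c ∧ ∀ η : ℝ, 0 < η → ∃ d : ℝ, 0 ≤ d ∧ ∀ᶠ T : ℝ in atTop, ∃ J : ℕ, BS c d η T J := by
  obtain ⟨c, hc, hr⟩ := ranges
  refine ⟨c, hc, fun η hη => ⟨c + |Real.log η|, by positivity, ?_⟩⟩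
  have t1 : Tendsto (fun T : ℝ => yy η T) atTop atTop := by
    unfold yy
    exact Real.tendsto_exp_atTop.comp (Real.tendsto_log_atTop.const_mul_atTop hη)
  filter_upwards [t1.eventually_ge_atTop 144, Real.tendsto_log_atTop.eventually_ge_atTop 10] with T h1 h2
  obtain ⟨J, hJ1, -, hJ3, hJ4⟩ := hr (yy η T) h1
  refine ⟨J, h1, hJ1, hJ3, ?_⟩
  have h6 : Real.log (Real.log (yy η T)) = Real.log η + Real.log (Real.log T) := by
    unfold yy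
    rw [Real.log_exp, Real.log_mul hη.ne' (by linarith)]
  rw [h6] at hJ4
  have h8 := neg_abs_le (Real.log η)
  have h9 := le_abs_self (Real.log η)
  rw [abs_le] at hJ4 ⊢
  constructor <;> linarith

/-- the mean of the short product -/
theorem onl0 {c η d : ℝ} {Rs : ℕ} (hη : 0 < η) (hη1 : η * ((Rs:ℝ) + 1) ≤ 1 / 800) (hRs : Rok c Rs) (hc : 0 ≤ c)
    (hd : 0 ≤ d) : ∃ C : ℝ, 0 < C ∧ ∀ᶠ T : ℝ in atTop, ∀ J : ℕ, BS c d η T J → ∀ a : ℝ, |a| ≤ 1 →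
      ∫ t in (T ^ ((3:ℝ)/4))..T, gp J a (RR Rs) (II (yy η T)) t ≤ C * (T * Real.log T ^ (a ^ 2)) := by
  have hB0 := Bc_pos c
  refine ⟨Real.exp (d + 12 * c + 2 * Bc c) + 2, by positivity, ?_⟩
  filter_upwards [Real.tendsto_log_atTop.eventually_ge_atTop 10, eventually_ge_atTop 1] with T h6 hT1 J hJ a ha
  obtain ⟨hy, hJ1, hJ2, hJ3⟩ := hJ
  set y := yy η T with hyd
  have hT0 : 0 < T := by linarith
  set L := Real.log T with hL
  have hly : Real.log y = η * L := Real.log_exp _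
  have hy1 : 1 ≤ y := by linarith
  have hL0 : 0 < L := by linarith
  set A : ℝ := T ^ ((3:ℝ)/4) with hA
  have hA0 : 0 < A := by positivity
  have hAT : A ≤ T := by
    have : T ^ ((3:ℝ)/4) ≤ T ^ (1:ℝ) := Real.rpow_le_rpow_of_exponent_le hT1 (by norm_num)
    rwa [Real.rpow_one] at this
  have hgc := gp_cII hy1 hJ1 a Rs
  have h1 : ∫ t in A..T, gp J a (RR Rs) (II y) t ≤ ∫ t in (0:ℝ)..T, gp J a (RR Rs) (II y) t := by
    have := intervalIntegral.integral_add_adjacent_intervals (hgc.intervalIntegrable 0 A)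
      (hgc.intervalIntegrable A T) (μ := volume)
    have h2 : 0 ≤ ∫ t in (0:ℝ)..A, gp J a (RR Rs) (II y) t :=
      intervalIntegral.integral_nonneg hA0.le fun t _ => gp_nonneg _ _ _ _ _
    linarith
  have hF := F_avg hy1 hJ1 hRs ha hT0.le
  set V := ∑ i ∈ range J, vI (II y i) with hV
  have a2 : a ^ 2 ≤ 1 := by rw [← sq_abs]; nlinarith [abs_nonneg a]
  have hP1 : 1 ≤ L ^ (a ^ 2) := Real.one_le_rpow (by linarith) (by positivity)
  have h3 : Real.exp (a ^ 2 * V + 12 * a ^ 2 * c + 2 * Bc c * Real.exp (-(Rs:ℝ))) ≤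
      L ^ (a ^ 2) * Real.exp (d + 12 * c + 2 * Bc c) := by
    rw [Real.rpow_def_of_pos hL0, ← Real.exp_add]
    refine Real.exp_le_exp.mpr ?_
    have x1 : Real.exp (-(Rs:ℝ)) ≤ 1 := Real.exp_le_one_iff.mpr (by simp)
    have e3 : 12 * a ^ 2 * c ≤ 12 * 1 * c := by gcongr
    have e4 : 2 * Bc c * Real.exp (-(Rs:ℝ)) ≤ 2 * Bc c * 1 := by gcongr
    have e5 : a ^ 2 * V ≤ a ^ 2 * (Real.log L + d) :=
      mul_le_mul_of_nonneg_left (by linarith [(abs_le.mp hJ3).2]) (by positivity)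
    have e6 : a ^ 2 * d ≤ 1 * d := mul_le_mul_of_nonneg_right a2 hd
    linarith
  have h4 : Real.exp (Real.log y * (400 * ((Rs:ℝ) + 1))) ≤ T := by
    rw [hly, ← Real.exp_log hT0]
    refine Real.exp_le_exp.mpr ?_
    have : η * L * (400 * ((Rs:ℝ) + 1)) = 400 * (η * ((Rs:ℝ) + 1)) * L := by ring
    rw [this]
    have h9 : 400 * (η * ((Rs:ℝ) + 1)) * L ≤ 1 * L := mul_le_mul_of_nonneg_right (by linarith) hL0.le
    linarith
  calc _ ≤ T * Real.exp (a ^ 2 * V + 12 * a ^ 2 * c + 2 * Bc c * Real.exp (-(Rs:ℝ))) +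
        2 * Real.exp (Real.log y * (400 * ((Rs:ℝ) + 1))) := h1.trans hF
    _ ≤ T * (L ^ (a ^ 2) * Real.exp (d + 12 * c + 2 * Bc c)) + 2 * (T * L ^ (a ^ 2)) := by
        refine add_le_add (mul_le_mul_of_nonneg_left h3 hT0.le) (mul_le_mul_of_nonneg_left ?_ (by norm_num))
        exact h4.trans (le_mul_of_one_le_right hT0.le hP1)
    _ = _ := by ring

/-- the admissible exponents -/
def Adj (β : ℝ) (j : ℕ) : Prop := (j = 0 ∧ β ≤ 2) ∨ j = 2 ∨ (j = 4 ∧ 2 ≤ β)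

lemma Adj.abs {β : ℝ} {j : ℕ} (h : Adj β j) (h0 : 0 < β) (h4 : β < 4) : |(β - j) / 2| ≤ 1 := by
  rcases h with ⟨rfl, h⟩ | rfl | ⟨rfl, h⟩
  · push_cast; rw [abs_le]; constructor <;> linarith
  · push_cast; rw [abs_le]; constructor <;> linarith
  · push_cast; rw [abs_le]; constructor <;> linarith

theorem mj {β : ℝ} (h0 : 0 < β) (h4 : β < 4) {j : ℕ} (hj : Adj β j) {c : ℝ} (hc : 0 ≤ c) :
    ∃ η0 : ℝ, 0 < η0 ∧ ∀ Rs : ℕ, Rok c Rs → ∀ η : ℝ, 0 < η → η * ((Rs:ℝ) + 1) ≤ η0 → ∀ d : ℝ, 0 ≤ d →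
      ∃ C : ℝ, 0 < C ∧ ∀ᶠ T : ℝ in atTop, ∀ J : ℕ, BS c d η T J →
        ∫ t in (T ^ ((3:ℝ)/4))..T, ‖riemannZeta (cl t)‖ ^ j * gp J ((β - j) / 2) (RR Rs) (II (yy η T)) t ≤
          C * (T * Real.log T ^ (β ^ 2 / 4)) := by
  have habs := hj.abs h0 h4
  rcases hj with ⟨rfl, h⟩ | rfl | ⟨rfl, h⟩
  · refine ⟨1 / 800, by norm_num, fun Rs hRs η hη hη1 d hd => ?_⟩
    obtain ⟨C, hC, h1⟩ := onl0 hη hη1 hRs hc hd
    refine ⟨C, hC, ?_⟩
    filter_upwards [h1] with T h1 J hJ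
    have h2 := h1 J hJ _ habs
    have e : ((β - ((0:ℕ):ℝ)) / 2) ^ 2 = β ^ 2 / 4 := by push_cast; ring
    rw [e] at h2
    simpa using h2
  · obtain ⟨ηm, hηm, hmono⟩ := mono_moment
    refine ⟨min ηm (1 / 4) / 4000, by positivity, fun Rs hRs η hη hη1 d hd => ?_⟩
    obtain ⟨C, hC, h1⟩ := Pool.Agent.Y755.onl hc hηm hmono hη hη1 hRs hd
    refine ⟨C, hC, ?_⟩
    filter_upwards [h1] with T h1 J hJ
    obtain ⟨_, hJ1, _, hJ3⟩ := hJ
    have h2 := h1 J (II (yy η T)) hJ1 hJ3 _ habs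
    have e : (1 + (β - ((2:ℕ):ℝ)) / 2) ^ 2 = β ^ 2 / 4 := by push_cast; ring
    rw [e] at h2
    exact h2
  · obtain ⟨η0, hη0, H⟩ := Pool.Agent.Y755.onl4 (z0 := 144) le_rfl
    refine ⟨η0, hη0, fun Rs hRs η hη hη1 d hd => ?_⟩
    obtain ⟨C, hC, h1⟩ := H c d Rs hc hd hRs.1 η hη hη1
    refine ⟨C, hC, ?_⟩
    filter_upwards [h1] with T h1 J hJ
    obtain ⟨hJ0, hJ1, hJ2, hJ3⟩ := hJ
    have h2 := h1 J (II (yy η T)) hJ1 (cover hJ0 hJ2) hJ3 (β / 2 - 1) (by linarith) (by linarith)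
    have e : (1 + (β / 2 - 1)) ^ 2 = β ^ 2 / 4 := by ring
    have e2 : (-1 + (β / 2 - 1)) = (β - ((4:ℕ):ℝ)) / 2 := by push_cast; ring
    rw [e, e2] at h2
    exact h2

/-- the two exponents -/
lemma two_exp {β : ℝ} (h0 : 0 < β) (h4 : β < 4) : ∃ j1 j2 : ℕ, (j1:ℝ) < β ∧ β < j2 ∧ Adj β j1 ∧ Adj β j2 := by
  rcases lt_trichotomy β 2 with h | h | h
  · exact ⟨0, 2, by simpa using h0, by simpa using h, Or.inl ⟨rfl, h.le⟩, Or.inr (Or.inl rfl)⟩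
  · exact ⟨0, 4, by simpa using h0, by simpa using h4, Or.inl ⟨rfl, h.le⟩, Or.inr (Or.inr ⟨rfl, h.ge⟩)⟩
  · exact ⟨2, 4, by simpa using h, by simpa using h4, Or.inr (Or.inl rfl), Or.inr (Or.inr ⟨rfl, h.le⟩)⟩

lemma Rok_ev (c : ℝ) : ∃ R0 : ℕ, ∀ R : ℕ, R0 ≤ R → Rok c R := by
  obtain ⟨R, hR, -⟩ := Rs_ex c 1 one_pos
  exact ⟨R, fun R' h => Rok_mono hR h⟩

lemma zc : Continuous fun t : ℝ => ‖riemannZeta (cl t)‖ := Pool.Agent.H262R4.TM.TTW.zeta_cont.norm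

/-- the main estimate over `[T^(3/4), T]` -/
theorem mid {β : ℝ} (h0 : 0 < β) (h4 : β < 4) (k : ℕ) : ∃ η1 : ℝ, 0 < η1 ∧ ∀ η : ℝ, 0 < η → η ≤ η1 →
    ∃ C : ℝ, 0 < C ∧ ∀ᶠ T : ℝ in atTop,
      ∫ t in (T ^ ((3:ℝ)/4))..T, FF β k (yy η T) t ≤ C * (T * Real.log T ^ (β ^ 2 / 4)) := by
  obtain ⟨j1, j2, hj1, hj2, a1, a2⟩ := two_exp h0 h4
  obtain ⟨c, hc, hBS⟩ := BS_ex
  obtain ⟨C0, hC0, hpt⟩ := pt_main hj1 hj2 (a1.abs h0 h4) (a2.abs h0 h4) k (D := 144) (by norm_num)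
  obtain ⟨η1, hη1, H1⟩ := mj h0 h4 a1 hc
  obtain ⟨η2, hη2, H2⟩ := mj h0 h4 a2 hc
  obtain ⟨R1, hR1⟩ := Rok_ev c
  obtain ⟨R2, hR2⟩ := Big_ev k
  set Rs := max R1 (max R2 1) with hRs
  have hRs1 : 1 ≤ Rs := (le_max_right _ _).trans (le_max_right _ _)
  have hRok : Rok c Rs := hR1 Rs (le_max_left _ _)
  have hBig : ∀ i, Big k (RR Rs i) := fun i => hR2 _ (by
    have : R2 ≤ Rs := (le_max_left _ _).trans (le_max_right _ _)
    unfold RR; omega)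
  have hRp : (0:ℝ) < (Rs:ℝ) + 1 := by positivity
  refine ⟨min η1 η2 / ((Rs:ℝ) + 1), by positivity, fun η hη hηle => ?_⟩
  rw [le_div_iff₀ hRp] at hηle
  obtain ⟨d, hd, hB⟩ := hBS η hη
  obtain ⟨C1, hC1, g1⟩ := H1 Rs hRok η hη (hηle.trans (min_le_left _ _)) d hd
  obtain ⟨C2, hC2, g2⟩ := H2 Rs hRok η hη (hηle.trans (min_le_right _ _)) d hd
  refine ⟨C0 * (C1 + C2), by positivity, ?_⟩
  filter_upwards [g1, g2, hB, eventually_ge_atTop 1] with T g1 g2 hB hT1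
  obtain ⟨J, hJ⟩ := hB
  have g1 := g1 J hJ
  have g2 := g2 J hJ
  obtain ⟨hJ0, hJ1, hJ2, hJ3⟩ := hJ
  set y := yy η T with hy
  set A : ℝ := T ^ ((3:ℝ)/4) with hA
  have hAT : A ≤ T := by
    have : T ^ ((3:ℝ)/4) ≤ T ^ (1:ℝ) := Real.rpow_le_rpow_of_exponent_le hT1 (by norm_num)
    rwa [Real.rpow_one] at this
  set G1 : ℝ → ℝ := fun t => ‖riemannZeta (cl t)‖ ^ j1 * gp J ((β - j1) / 2) (RR Rs) (II y) t with hG1
  set G2 : ℝ → ℝ := fun t => ‖riemannZeta (cl t)‖ ^ j2 * gp J ((β - j2) / 2) (RR Rs) (II y) t with hG2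
  have hc1 : Continuous G1 := (zc.pow j1).mul (gp_cII (by linarith) hJ1 _ Rs)
  have hc2 : Continuous G2 := (zc.pow j2).mul (gp_cII (by linarith) hJ1 _ Rs)
  have hle : ∀ t, FF β k y t ≤ C0 * (G1 t + G2 t) := by
    intro t
    obtain ⟨s, hs, es⟩ := PS_decomp hJ0 hJ2 t
    have := hpt J Rs (fun i => PI (II y i) (1 / 2 + t * Complex.I)) ‖riemannZeta (cl t)‖ s hRs1 hBig
      (norm_nonneg _) hs
    unfold FF
    rw [es]
    exact this
  have hint : IntegrableOn (fun t => C0 * (G1 t + G2 t)) (Set.Ioc A T) :=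
    ((continuous_const.mul (hc1.add hc2)).integrableOn_Icc (a := A) (b := T)).mono_set Set.Ioc_subset_Icc_self
  calc ∫ t in A..T, FF β k y t = ∫ t in Set.Ioc A T, FF β k y t := intervalIntegral.integral_of_le hAT
    _ ≤ ∫ t in Set.Ioc A T, C0 * (G1 t + G2 t) :=
        integral_mono_of_nonneg (Eventually.of_forall fun t => FF_nonneg _ _ _ _) hint
          (Eventually.of_forall hle)
    _ = C0 * ((∫ t in A..T, G1 t) + ∫ t in A..T, G2 t) := by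
        rw [← intervalIntegral.integral_of_le hAT, intervalIntegral.integral_const_mul,
          intervalIntegral.integral_add (hc1.intervalIntegrable _ _) (hc2.intervalIntegrable _ _)]
    _ ≤ C0 * (C1 * (T * Real.log T ^ (β ^ 2 / 4)) + C2 * (T * Real.log T ^ (β ^ 2 / 4))) :=
        mul_le_mul_of_nonneg_left (add_le_add g1 g2) hC0.le
    _ = _ := by ring

end Pool.Agent.H998_TS
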