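import Pool.Agent.W184.NZ.Up1

set_option autoImplicit false

/-! Pointwise inequalities for the logarithm of zeta against the blocks of primes. -/

namespace Pool.Agent.H998_TS

open Finset Real
open Pool.Agent.W184.NZ

/-- powers of the logarithm are harmless -/
lemma pow_log_bound {β a b : ℝ} (h1 : a < β) (h2 : β < b) (k : ℕ) :
    ∃ C : ℝ, 0 < C ∧ ∀ u : ℝ, 0 < u → u ^ β * |Real.log u| ^ k ≤ C * (u ^ a + u ^ b) := by
  have key : ∀ e : ℝ, 0 < e → ∀ u : ℝ, 1 ≤ u → |Real.log u| ^ k ≤ ((k + 1) / e) ^ k * u ^ e := by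
    intro e he u hu
    have hu0 : 0 < u := by linarith
    have hk : (0:ℝ) < (k:ℝ) + 1 := by positivity
    have h3 := Real.log_le_rpow_div hu0.le (show 0 < e / ((k:ℝ) + 1) by positivity)
    have h4 : 0 ≤ Real.log u := Real.log_nonneg hu
    rw [abs_of_nonneg h4]
    calc Real.log u ^ k ≤ (u ^ (e / ((k:ℝ) + 1)) / (e / ((k:ℝ) + 1))) ^ k := pow_le_pow_left₀ h4 h3 k
      _ = ((k + 1) / e) ^ k * (u ^ (e / ((k:ℝ) + 1))) ^ k := by
          rw [← mul_pow]; congr 1; field_simp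
      _ ≤ ((k + 1) / e) ^ k * u ^ e := by
          refine mul_le_mul_of_nonneg_left ?_ (by positivity)
          rw [← Real.rpow_natCast, ← Real.rpow_mul hu0.le]
          refine Real.rpow_le_rpow_of_exponent_le hu ?_
          rw [div_mul_eq_mul_div, div_le_iff₀ hk]
          nlinarith
  have hA : 0 < ((k + 1) / (b - β)) ^ k := by
    have : 0 < b - β := by linarith
    positivity
  have hB : 0 < ((k + 1) / (β - a)) ^ k := by
    have : 0 < β - a := by linarith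
    positivity
  refine ⟨((k + 1) / (b - β)) ^ k + ((k + 1) / (β - a)) ^ k, by positivity, fun u hu => ?_⟩
  have ua : 0 < u ^ a := Real.rpow_pos_of_pos hu a
  have ub : 0 < u ^ b := Real.rpow_pos_of_pos hu b
  rcases le_total 1 u with h | h
  · have h3 := key (b - β) (by linarith) u h
    have e : u ^ β * u ^ (b - β) = u ^ b := by rw [← Real.rpow_add hu]; congr 1; ring
    calc u ^ β * |Real.log u| ^ k ≤ u ^ β * (((k + 1) / (b - β)) ^ k * u ^ (b - β)) :=
          mul_le_mul_of_nonneg_left h3 (Real.rpow_nonneg hu.le _)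
      _ = ((k + 1) / (b - β)) ^ k * u ^ b := by rw [← e]; ring
      _ ≤ _ := by nlinarith [mul_pos hA ua, mul_pos hB ua, mul_pos hB ub]
  · have h3 := key (β - a) (by linarith) u⁻¹ ((one_le_inv₀ hu).mpr h)
    rw [Real.log_inv, abs_neg] at h3
    have e : u ^ β * (u⁻¹) ^ (β - a) = u ^ a := by
      rw [Real.inv_rpow hu.le, ← Real.rpow_neg hu.le, ← Real.rpow_add hu]; congr 1; ring
    calc u ^ β * |Real.log u| ^ k ≤ u ^ β * (((k + 1) / (β - a)) ^ k * u⁻¹ ^ (β - a)) :=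
          mul_le_mul_of_nonneg_left h3 (Real.rpow_nonneg hu.le _)
      _ = ((k + 1) / (β - a)) ^ k * u ^ a := by rw [← e]; ring
      _ ≤ _ := by nlinarith [mul_pos hA ua, mul_pos hA ub, mul_pos hB ub]

/-- a block, central part -/
lemma block_good {R : ℕ} (hR : 1 ≤ R) {a : ℝ} (ha : |a| ≤ 1) {z : ℂ} (hz : ‖z‖ ≤ 2 * R) :
    (1 - Real.exp (-(2 * (R:ℝ)))) ^ 2 * Real.exp (2 * a * z.re) ≤ gf (20 * R) a R z := by
  have h := cl_ten (R := 2 * R) (by omega) ha
  rw [show 10 * (2 * R) = 20 * R by ring] at h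
  have h1 := NK_ge_of_cl h (z := z) (by push_cast; exact hz)
  push_cast at h1
  have h0 : 0 ≤ 1 - Real.exp (-(2 * (R:ℝ))) := by
    have : Real.exp (-(2 * (R:ℝ))) ≤ 1 := Real.exp_le_one_iff.mpr (by
      have : (0:ℝ) ≤ R := Nat.cast_nonneg _
      linarith)
    linarith
  have h2 := pow_le_pow_left₀ (mul_nonneg h0 (norm_nonneg _)) h1 2
  rw [mul_pow, norm_exp_sq] at h2
  unfold gf
  have : 0 ≤ (‖z‖ / R) ^ (2 * R) := by positivity
  linarith

/-- a block, exceptional part -/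
lemma block_bad {R k : ℕ} (hR : 1 ≤ R) (h1 : k ≤ 2 * R) (h2 : (2 * (R:ℝ)) ^ k ≤ 4 ^ R) (a : ℝ) {z : ℂ}
    (hz : 2 * (R:ℝ) < ‖z‖) : ‖z‖ ^ k ≤ gf (20 * R) a R z := by
  have hR' : (0:ℝ) < R := by exact_mod_cast hR
  set r := ‖z‖ / R with hr
  have hr2 : 2 ≤ r := by rw [hr, le_div_iff₀ hR']; exact hz.le
  have e : ‖z‖ = r * R := by rw [hr]; field_simp
  have h3 : (R:ℝ) ^ k ≤ r ^ (2 * R - k) := by
    have h4 : (2:ℝ) ^ (2 * R - k) ≤ r ^ (2 * R - k) := pow_le_pow_left₀ (by norm_num) hr2 _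
    refine le_trans ?_ h4
    have h5 : (2:ℝ) ^ k * (R:ℝ) ^ k ≤ 2 ^ k * 2 ^ (2 * R - k) := by
      rw [← mul_pow, ← pow_add, show k + (2 * R - k) = 2 * R by omega, pow_mul]
      refine h2.trans (le_of_eq ?_)
      norm_num
    exact le_of_mul_le_mul_left h5 (by positivity)
  unfold gf
  have h6 : ‖z‖ ^ k ≤ r ^ (2 * R) := by
    rw [e, mul_pow]
    calc r ^ k * (R:ℝ) ^ k ≤ r ^ k * r ^ (2 * R - k) := mul_le_mul_of_nonneg_left h3 (by positivity)
      _ = r ^ (2 * R) := by rw [← pow_add]; congr 1; omega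
  have : 0 ≤ ‖NK (20 * R) a z‖ ^ 2 := by positivity
  linarith

lemma sum_le_prod {ι : Type*} (s : Finset ι) {x : ι → ℝ} (hx : ∀ i ∈ s, 2 ≤ x i) :
    ∑ i ∈ s, x i ≤ ∏ i ∈ s, x i ∧ 1 ≤ ∏ i ∈ s, x i := by
  classical
  induction s using Finset.induction_on with
  | empty => simp
  | insert i s hi ih =>
    obtain ⟨h1, h2⟩ := ih fun j hj => hx j (mem_insert_of_mem hj)
    have h3 := hx i (mem_insert_self i s)
    rw [sum_insert hi, prod_insert hi]
    constructor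
    · rcases s.eq_empty_or_nonempty with h | h
      · subst h; simp
      · obtain ⟨j, hj⟩ := h
        have h4 : 2 ≤ ∏ i ∈ s, x i := by
          have h5 : x j ≤ ∑ i ∈ s, x i :=
            single_le_sum (f := x) (fun l hl => by linarith [hx l (mem_insert_of_mem hl)]) hj
          linarith [hx j (mem_insert_of_mem hj)]
        nlinarith
    · nlinarith

/-- condition on the parameter -/
def Big (k R : ℕ) : Prop := k ≤ 2 * R ∧ (2 * (R:ℝ)) ^ k ≤ 4 ^ R

lemma Big_ev (k : ℕ) : ∃ R0 : ℕ, ∀ R : ℕ, R0 ≤ R → Big k R := by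
  have h := tendsto_pow_const_div_const_pow_of_one_lt k (show (1:ℝ) < 2 by norm_num)
  have h1 := h.eventually (gt_mem_nhds (show (0:ℝ) < 1 by norm_num))
  obtain ⟨n0, hn⟩ := Filter.eventually_atTop.mp h1
  refine ⟨max n0 k, fun R hR => ⟨by omega, ?_⟩⟩
  have h2 := hn (2 * R) (by omega)
  rw [div_lt_one (by positivity)] at h2
  push_cast at h2
  rw [pow_mul] at h2
  norm_num at h2
  exact h2.le

/-- the blocks where the prime sum is small -/
noncomputable def Gd (J Rs : ℕ) (z : ℕ → ℂ) : Finset ℕ := by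
  classical exact (range J).filter fun i => ‖z i‖ ≤ 2 * (RR Rs i : ℝ)

/-- the other blocks -/
noncomputable def Bd' (J Rs : ℕ) (z : ℕ → ℂ) : Finset ℕ := by
  classical exact (range J).filter fun i => ¬ ‖z i‖ ≤ 2 * (RR Rs i : ℝ)

lemma mem_Gd {J Rs : ℕ} {z : ℕ → ℂ} {i : ℕ} : i ∈ Gd J Rs z ↔ i < J ∧ ‖z i‖ ≤ 2 * (RR Rs i : ℝ) := by
  unfold Gd; rw [mem_filter, mem_range]

lemma mem_Bd' {J Rs : ℕ} {z : ℕ → ℂ} {i : ℕ} : i ∈ Bd' J Rs z ↔ i < J ∧ 2 * (RR Rs i : ℝ) < ‖z i‖ := by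
  unfold Bd'; rw [mem_filter, mem_range, not_le]

lemma prod_gd {J Rs : ℕ} {z : ℕ → ℂ} (f : ℕ → ℝ) :
    (∏ i ∈ Gd J Rs z, f i) * ∏ i ∈ Bd' J Rs z, f i = ∏ i ∈ range J, f i := by
  classical
  unfold Gd Bd'
  exact prod_filter_mul_prod_filter_not _ _ _

lemma sum_gd {J Rs : ℕ} {z : ℕ → ℂ} (f : ℕ → ℝ) :
    (∑ i ∈ Gd J Rs z, f i) + ∑ i ∈ Bd' J Rs z, f i = ∑ i ∈ range J, f i := by
  classical
  unfold Gd Bd'
  exact sum_filter_add_sum_filter_not _ _ _

lemma one_sub_prod {ι : Type*} (s : Finset ι) {x : ι → ℝ} (h0 : ∀ i ∈ s, 0 ≤ x i) (h1 : ∀ i ∈ s, x i ≤ 1) :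
    1 - ∑ i ∈ s, x i ≤ ∏ i ∈ s, (1 - x i) := by
  classical
  induction s using Finset.induction_on with
  | empty => simp
  | insert i s hi ih =>
    have h2 := ih (fun j hj => h0 j (mem_insert_of_mem hj)) fun j hj => h1 j (mem_insert_of_mem hj)
    have h3 := h0 i (mem_insert_self i s)
    have h4 := h1 i (mem_insert_self i s)
    have h5 : 0 ≤ ∑ i ∈ s, x i := sum_nonneg fun j hj => h0 j (mem_insert_of_mem hj)
    rw [sum_insert hi, prod_insert hi]
    nlinarith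

/-- the product over all blocks -/
lemma prod_low {J Rs k : ℕ} (hRs : 1 ≤ Rs) (hB : ∀ i, Big k (RR Rs i)) {a : ℝ} (ha : |a| ≤ 1) (z : ℕ → ℂ) :
    Real.exp (2 * a * ∑ i ∈ Gd J Rs z, (z i).re) * ∏ i ∈ Bd' J Rs z, ‖z i‖ ^ k ≤
      2 * ∏ i ∈ range J, gf (20 * RR Rs i) a (RR Rs i) (z i) := by
  have hRR : ∀ i, 1 ≤ RR Rs i := fun i => by unfold RR; omega
  set x : ℕ → ℝ := fun i => Real.exp (-(2 * (RR Rs i : ℝ))) with hx
  have hx0 : ∀ i, 0 ≤ x i := fun i => (Real.exp_pos _).le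
  have hx1 : ∀ i, x i ≤ 1 := fun i => Real.exp_le_one_iff.mpr (by
    have : (0:ℝ) ≤ RR Rs i := Nat.cast_nonneg _
    linarith)
  have hs : ∑ i ∈ Gd J Rs z, x i ≤ 1 / 4 := by
    have h1 : ∀ i, x i ≤ 1 / 8 * (1 / 2) ^ i := by
      intro i
      have h2 : (4:ℝ) + i ≤ 2 * (RR Rs i : ℝ) := by
        unfold RR
        push_cast
        have : (1:ℝ) ≤ Rs := by exact_mod_cast hRs
        have : (0:ℝ) ≤ i := Nat.cast_nonneg _
        linarith
      have h3 : Real.exp (-1) ≤ 1 / 2 := by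
        rw [Real.exp_neg, inv_le_comm₀ (Real.exp_pos _) (by norm_num)]
        have := Real.exp_one_gt_d9
        linarith
      calc x i ≤ Real.exp (-(4 + (i:ℝ))) := Real.exp_le_exp.mpr (by linarith)
        _ = Real.exp (-1) ^ (4 + i) := by rw [← Real.exp_nat_mul]; congr 1; push_cast; ring
        _ ≤ (1 / 2) ^ (4 + i) := pow_le_pow_left₀ (Real.exp_pos _).le h3 _
        _ = 1 / 16 * (1 / 2) ^ i := by rw [pow_add]; norm_num
        _ ≤ _ := by
          have : (0:ℝ) < (1 / 2) ^ i := by positivity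
          linarith
    calc ∑ i ∈ Gd J Rs z, x i ≤ ∑ i ∈ range J, x i := by
          rw [← sum_gd (Rs := Rs) (z := z)]
          have : 0 ≤ ∑ i ∈ Bd' J Rs z, x i := sum_nonneg fun i _ => hx0 i
          linarith
      _ ≤ ∑ i ∈ range J, 1 / 8 * (1 / 2 : ℝ) ^ i := sum_le_sum fun i _ => h1 i
      _ = 1 / 8 * ∑ i ∈ range J, (1 / 2 : ℝ) ^ i := by rw [mul_sum]
      _ ≤ 1 / 8 * 2 := by
          refine mul_le_mul_of_nonneg_left ?_ (by norm_num)
          have h5 := (summable_geometric_of_lt_one (show (0:ℝ) ≤ 1 / 2 by norm_num) (by norm_num)).sum_le_tsum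
            (range J) (fun i _ => by positivity)
          rw [tsum_geometric_of_lt_one (by norm_num) (by norm_num)] at h5
          norm_num at h5 ⊢
          exact h5
      _ = 1 / 4 := by norm_num
  have hpr := one_sub_prod (Gd J Rs z) (fun i _ => hx0 i) (fun i _ => hx1 i)
  have hpr2 : (1:ℝ) / 2 ≤ ∏ i ∈ Gd J Rs z, (1 - x i) ^ 2 := by
    rw [prod_pow]
    nlinarith
  have e1 : Real.exp (2 * a * ∑ i ∈ Gd J Rs z, (z i).re) = ∏ i ∈ Gd J Rs z, Real.exp (2 * a * (z i).re) := by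
    rw [← Real.exp_sum, mul_sum]
  have hg : (∏ i ∈ Gd J Rs z, (1 - x i) ^ 2) * ∏ i ∈ Gd J Rs z, Real.exp (2 * a * (z i).re) ≤
      ∏ i ∈ Gd J Rs z, gf (20 * RR Rs i) a (RR Rs i) (z i) := by
    rw [← prod_mul_distrib]
    refine prod_le_prod (fun i _ => by positivity) fun i hi => ?_
    rw [mem_Gd] at hi
    exact block_good (hRR i) ha hi.2
  have hb : ∏ i ∈ Bd' J Rs z, ‖z i‖ ^ k ≤ ∏ i ∈ Bd' J Rs z, gf (20 * RR Rs i) a (RR Rs i) (z i) := by
    refine prod_le_prod (fun i _ => by positivity) fun i hi => ?_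
    rw [mem_Bd'] at hi
    exact block_bad (hRR i) (hB i).1 (hB i).2 a hi.2
  rw [← prod_gd (Rs := Rs) (z := z) (f := fun i => gf (20 * RR Rs i) a (RR Rs i) (z i)), e1]
  set E := ∏ i ∈ Gd J Rs z, Real.exp (2 * a * (z i).re) with hE
  have hE0 : 0 ≤ E := prod_nonneg fun i _ => (Real.exp_pos _).le
  have hB0 : 0 ≤ ∏ i ∈ Bd' J Rs z, ‖z i‖ ^ k := prod_nonneg fun i _ => by positivity
  have hG0 : 0 ≤ ∏ i ∈ Gd J Rs z, gf (20 * RR Rs i) a (RR Rs i) (z i) := prod_nonneg fun i _ => gf_nonneg _ _ _ _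
  have h7 : E ≤ 2 * ∏ i ∈ Gd J Rs z, gf (20 * RR Rs i) a (RR Rs i) (z i) := by nlinarith
  calc E * ∏ i ∈ Bd' J Rs z, ‖z i‖ ^ k ≤ (2 * ∏ i ∈ Gd J Rs z, gf (20 * RR Rs i) a (RR Rs i) (z i)) *
        ∏ i ∈ Bd' J Rs z, gf (20 * RR Rs i) a (RR Rs i) (z i) := mul_le_mul h7 hb hB0 (by positivity)
    _ = _ := by ring

/-- the pointwise inequality -/
theorem pt_main {β : ℝ} {j1 j2 : ℕ} (h1 : (j1:ℝ) < β) (h2 : β < j2) (h3 : |(β - j1) / 2| ≤ 1)
    (h4 : |(β - j2) / 2| ≤ 1) (k : ℕ) {D : ℝ} (hD : 0 ≤ D) :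
    ∃ C : ℝ, 0 < C ∧ ∀ (J Rs : ℕ) (z : ℕ → ℂ) (x s : ℝ), 1 ≤ Rs → (∀ i, Big k (RR Rs i)) → 0 ≤ x → |s| ≤ D →
      x ^ β * |Real.log x - (∑ i ∈ range J, (z i).re + s)| ^ k ≤
        C * (x ^ j1 * ∏ i ∈ range J, gf (20 * RR Rs i) ((β - j1) / 2) (RR Rs i) (z i) +
          x ^ j2 * ∏ i ∈ range J, gf (20 * RR Rs i) ((β - j2) / 2) (RR Rs i) (z i)) := by
  obtain ⟨C, hC, hl⟩ := pow_log_bound h1 h2 k
  obtain ⟨C', hC', hl'⟩ := pow_log_bound h1 h2 0
  refine ⟨3 ^ k * ((C + C') * (2 + D ^ k)) * 2, by positivity, fun J Rs z x s hRs hB hx hs => ?_⟩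
  have hβ : 0 < β := lt_of_le_of_lt (Nat.cast_nonneg _) h1
  set g1 := ∏ i ∈ range J, gf (20 * RR Rs i) ((β - j1) / 2) (RR Rs i) (z i) with hg1
  set g2 := ∏ i ∈ range J, gf (20 * RR Rs i) ((β - j2) / 2) (RR Rs i) (z i) with hg2
  have hg10 : 0 ≤ g1 := prod_nonneg fun i _ => gf_nonneg _ _ _ _
  have hg20 : 0 ≤ g2 := prod_nonneg fun i _ => gf_nonneg _ _ _ _
  rcases hx.eq_or_lt with hx | hx
  · subst hx
    rw [Real.zero_rpow hβ.ne', zero_mul]
    positivity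
  set G := ∑ i ∈ Gd J Rs z, (z i).re with hG
  set E := ∑ i ∈ Bd' J Rs z, (z i).re with hE
  have hGE : ∑ i ∈ range J, (z i).re = G + E := (sum_gd (Rs := Rs) (z := z) fun i => (z i).re).symm
  set Pb := ∏ i ∈ Bd' J Rs z, ‖z i‖ ^ k with hPb
  have hRR : ∀ i, (1:ℝ) ≤ RR Rs i := fun i => by
    have : 1 ≤ RR Rs i := by unfold RR; omega
    exact_mod_cast this
  obtain ⟨hsp, hsp1⟩ := sum_le_prod (Bd' J Rs z) (x := fun i => ‖z i‖) (fun i hi => by
    rw [mem_Bd'] at hi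
    linarith [hi.2, hRR i])
  have hPb1 : 1 ≤ Pb := by
    rw [hPb, prod_pow]; exact one_le_pow₀ hsp1
  have hEk : |E| ^ k ≤ Pb := by
    rw [hPb, prod_pow]
    refine pow_le_pow_left₀ (abs_nonneg _) ?_ k
    refine le_trans ?_ hsp
    exact (abs_sum_le_sum_abs _ _).trans (sum_le_sum fun i _ => Complex.abs_re_le_norm _)
  -- the main variable
  set u := x * Real.exp (-G) with hu
  have hu0 : 0 < u := by positivity
  have hlu : Real.log u = Real.log x - G := by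
    rw [hu, Real.log_mul hx.ne' (Real.exp_pos _).ne', Real.log_exp]; ring
  have hk3 : |Real.log x - (∑ i ∈ range J, (z i).re + s)| ^ k ≤
      3 ^ k * (|Real.log u| ^ k + |E| ^ k + D ^ k) := by
    have e : Real.log x - (∑ i ∈ range J, (z i).re + s) = Real.log u - E - s := by rw [hGE, hlu]; ring
    have h5 : |Real.log x - (∑ i ∈ range J, (z i).re + s)| ≤ |Real.log u| + |E| + |s| := by
      rw [e]
      exact (abs_sub _ _).trans (add_le_add_left (abs_sub _ _) _)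
    have h6 : |Real.log u| + |E| + |s| ≤ 3 * max (max |Real.log u| |E|) D := by
      have a1 := le_max_left (max |Real.log u| |E|) D
      have a2 := le_max_right (max |Real.log u| |E|) D
      have a3 := le_max_left |Real.log u| |E|
      have a4 := le_max_right |Real.log u| |E|
      linarith
    have hM0 : 0 ≤ max (max |Real.log u| |E|) D := le_trans hD (le_max_right _ _)
    calc _ ≤ (3 * max (max |Real.log u| |E|) D) ^ k := pow_le_pow_left₀ (abs_nonneg _) (h5.trans h6) k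
      _ = 3 ^ k * (max (max |Real.log u| |E|) D) ^ k := mul_pow _ _ _
      _ ≤ _ := by
        refine mul_le_mul_of_nonneg_left ?_ (by positivity)
        have b1 : 0 ≤ |Real.log u| ^ k := by positivity
        have b2 : 0 ≤ |E| ^ k := by positivity
        have b3 : 0 ≤ D ^ k := by positivity
        rcases max_choice (max |Real.log u| |E|) D with h | h
        · rw [h]
          rcases max_choice |Real.log u| |E| with h' | h'
          · rw [h']; linarith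
          · rw [h']; linarith
        · rw [h]; linarith
  have hxβ : x ^ β = Real.exp (β * G) * u ^ β := by
    rw [hu, Real.mul_rpow hx.le (Real.exp_pos _).le, ← Real.exp_mul]
    rw [mul_left_comm, ← Real.exp_add]
    rw [show β * G + -G * β = 0 by ring, Real.exp_zero, mul_one]
  have hw1 := hl u hu0
  have hw2 := hl' u hu0
  rw [pow_zero, mul_one] at hw2
  set W := u ^ (j1:ℝ) + u ^ (j2:ℝ) with hW
  have hW0 : 0 < W := by positivity
  have hDk : 0 ≤ D ^ k := by positivity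
  have hub : 0 ≤ u ^ β := by positivity
  have key : u ^ β * (|Real.log u| ^ k + |E| ^ k + D ^ k) ≤ (C + C') * (2 + D ^ k) * (W * Pb) := by
    have c1 : u ^ β * |Real.log u| ^ k ≤ C * (W * Pb) := by
      refine hw1.trans (mul_le_mul_of_nonneg_left ?_ hC.le)
      exact le_mul_of_one_le_right hW0.le hPb1
    have c2 : u ^ β * |E| ^ k ≤ C' * (W * Pb) := by
      calc u ^ β * |E| ^ k ≤ (C' * W) * Pb := mul_le_mul hw2 hEk (by positivity) (by positivity)
        _ = _ := by ring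
    have c3 : u ^ β * D ^ k ≤ D ^ k * (C' * (W * Pb)) := by
      rw [mul_comm]
      refine mul_le_mul_of_nonneg_left ?_ hDk
      refine hw2.trans (mul_le_mul_of_nonneg_left ?_ hC'.le)
      exact le_mul_of_one_le_right hW0.le hPb1
    have hWP : 0 ≤ W * Pb := by positivity
    have c4 : 0 ≤ D ^ k * (C * (W * Pb)) := by positivity
    nlinarith [mul_nonneg hC.le hWP, mul_nonneg hC'.le hWP]
  have hj : ∀ j : ℕ, Real.exp (β * G) * u ^ (j:ℝ) * Pb = x ^ j * (Real.exp (2 * ((β - j) / 2) * G) * Pb) := by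
    intro j
    rw [hu, Real.rpow_natCast, mul_pow, ← Real.exp_nat_mul]
    have : Real.exp (β * G) * (x ^ j * Real.exp ((j:ℝ) * -G)) * Pb =
        x ^ j * ((Real.exp (β * G) * Real.exp ((j:ℝ) * -G)) * Pb) := by ring
    rw [this, ← Real.exp_add]
    congr 4
    ring
  have p1 := prod_low (J := J) hRs hB h3 z
  have p2 := prod_low (J := J) hRs hB h4 z
  rw [← hG] at p1 p2
  calc x ^ β * |Real.log x - (∑ i ∈ range J, (z i).re + s)| ^ k ≤
      x ^ β * (3 ^ k * (|Real.log u| ^ k + |E| ^ k + D ^ k)) := mul_le_mul_of_nonneg_left hk3 (by positivity)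
    _ = 3 ^ k * (Real.exp (β * G) * (u ^ β * (|Real.log u| ^ k + |E| ^ k + D ^ k))) := by rw [hxβ]; ring
    _ ≤ 3 ^ k * (Real.exp (β * G) * ((C + C') * (2 + D ^ k) * (W * Pb))) := by gcongr
    _ = 3 ^ k * ((C + C') * (2 + D ^ k)) * (Real.exp (β * G) * u ^ (j1:ℝ) * Pb + Real.exp (β * G) * u ^ (j2:ℝ) * Pb) := by
        rw [hW]; ring
    _ = 3 ^ k * ((C + C') * (2 + D ^ k)) * (x ^ j1 * (Real.exp (2 * ((β - j1) / 2) * G) * Pb) +
          x ^ j2 * (Real.exp (2 * ((β - j2) / 2) * G) * Pb)) := by rw [hj, hj]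
    _ ≤ 3 ^ k * ((C + C') * (2 + D ^ k)) * (x ^ j1 * (2 * g1) + x ^ j2 * (2 * g2)) := by
        gcongr
    _ = _ := by ring

end Pool.Agent.H998_TS
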