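import Pool.Agent.H998_TS.Pt
import Pool.Agent.Y755.Sys

set_option autoImplicit false

/-! The sum over the primes and the blocks. -/

namespace Pool.Agent.H998_TS

open Finset Real
open Pool.Agent.W184.NZ

/-- the sum `∑_{p ≤ y} cos (t log p) / √p` -/
noncomputable def PS (y t : ℝ) : ℝ :=
  ∑ p ∈ (range (⌊y⌋₊ + 1)).filter Nat.Prime, Real.cos (t * Real.log p) / Real.sqrt p

lemma term_re (p : ℕ) (hp : p.Prime) (t : ℝ) :
    (((p : ℕ) : ℂ) ^ (-(1 / 2 + t * Complex.I))).re = Real.cos (t * Real.log p) / Real.sqrt p := by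
  have hp0 : (0:ℝ) < p := by exact_mod_cast hp.pos
  have hpc : ((p:ℕ):ℂ) ≠ 0 := by exact_mod_cast hp0.ne'
  rw [Complex.cpow_def_of_ne_zero hpc, ← Complex.ofReal_natCast, ← Complex.ofReal_log hp0.le]
  have e : ((Real.log p : ℝ) : ℂ) * (-(1 / 2 + t * Complex.I)) =
      ((-(Real.log p / 2) : ℝ) : ℂ) + ((-(t * Real.log p) : ℝ) : ℂ) * Complex.I := by
    push_cast; ring
  rw [e, Complex.exp_add_mul_I, ← Complex.ofReal_exp, ← Complex.ofReal_cos, ← Complex.ofReal_sin]
  have e2 : (((Real.exp (-(Real.log p / 2)) : ℝ) : ℂ) *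
      (((Real.cos (-(t * Real.log p)) : ℝ) : ℂ) + ((Real.sin (-(t * Real.log p)) : ℝ) : ℂ) * Complex.I)).re =
      Real.exp (-(Real.log p / 2)) * Real.cos (-(t * Real.log p)) := by
    rw [Complex.re_ofReal_mul, Complex.add_re, Complex.ofReal_re, Complex.re_ofReal_mul, Complex.I_re, mul_zero,
      add_zero]
  rw [e2, Real.cos_neg]
  have e3 : Real.exp (-(Real.log p / 2)) = (Real.sqrt p)⁻¹ := by
    rw [Real.sqrt_eq_rpow, ← Real.rpow_neg hp0.le, Real.rpow_def_of_pos hp0]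
    congr 1; ring
  rw [e3]
  ring

lemma PI_re {I : Finset ℕ} (hI : ∀ p ∈ I, p.Prime) (t : ℝ) :
    (PI I (1 / 2 + t * Complex.I)).re = ∑ p ∈ I, Real.cos (t * Real.log p) / Real.sqrt p := by
  unfold PI
  rw [Complex.re_sum]
  exact sum_congr rfl fun p hp => term_re p (hI p hp) t

lemma term_le {p : ℕ} (hp : 1 ≤ p) (x : ℝ) : |Real.cos x / Real.sqrt p| ≤ 1 := by
  rw [abs_div, abs_of_nonneg (Real.sqrt_nonneg _)]
  have h1 : 1 ≤ Real.sqrt p := by
    rw [Real.one_le_sqrt]; exact_mod_cast hp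
  rw [div_le_one (by linarith)]
  exact (Real.abs_cos_le_one _).trans h1

/-- the decomposition -/
lemma PS_decomp {y : ℝ} (hy : 144 ≤ y) {J : ℕ} (hJ : bb y J < 144) (t : ℝ) :
    ∃ s : ℝ, |s| ≤ 144 ∧ PS y t = ∑ i ∈ range J, (PI (II y i) (1 / 2 + t * Complex.I)).re + s := by
  classical
  have hy0 : 0 ≤ y := by linarith
  have hpr : ∀ i, ∀ p ∈ II y i, p.Prime := fun i p hp => by rw [mem_II] at hp; exact hp.1
  simp_rw [PI_re (hpr _)]
  rw [sum_II (by linarith)]
  set F : ℕ → ℝ := fun p => Real.cos (t * Real.log p) / Real.sqrt p with hF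
  set S := (range 144).filter Nat.Prime with hS
  have e : (range (⌊y⌋₊ + 1)).filter Nat.Prime = PF y (bb y J) ∪ S := by
    ext p
    rw [mem_filter, mem_range, mem_union, mem_PF hy0, hS, mem_filter, mem_range]
    constructor
    · rintro ⟨h1, h2⟩
      have h3 : (p:ℝ) ≤ y := (Nat.le_floor_iff hy0).mp (by omega)
      rcases lt_or_ge p 144 with h | h
      · exact Or.inr ⟨h, h2⟩
      · refine Or.inl ⟨h2, h, ?_, h3⟩
        have : (144:ℝ) ≤ p := by exact_mod_cast h
        linarith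
    · rintro (h | h)
      · refine ⟨?_, h.1⟩
        have := Nat.le_floor h.2.2.2
        omega
      · refine ⟨?_, h.2⟩
        have : (144:ℕ) ≤ ⌊y⌋₊ := Nat.le_floor (by exact_mod_cast hy)
        omega
  have hd : Disjoint (PF y (bb y J)) S := by
    rw [disjoint_left]
    intro p hp hq
    rw [mem_PF hy0] at hp
    rw [hS, mem_filter, mem_range] at hq
    omega
  refine ⟨∑ p ∈ S, F p, ?_, ?_⟩
  · refine (abs_sum_le_sum_abs _ _).trans ?_
    calc ∑ p ∈ S, |F p| ≤ ∑ _p ∈ S, (1:ℝ) := by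
          refine sum_le_sum fun p hp => ?_
          rw [hS, mem_filter] at hp
          exact term_le hp.2.one_lt.le _
      _ = (S.card : ℝ) := by simp
      _ ≤ 144 := by
          have h1 : S.card ≤ 144 := by
            have := card_filter_le (range 144) Nat.Prime
            rwa [card_range] at this
          exact_mod_cast h1
  · unfold PS
    rw [e, sum_union hd]

lemma PS_le {y : ℝ} (hy : 1 ≤ y) (t : ℝ) : |PS y t| ≤ 2 * y := by
  unfold PS
  refine (abs_sum_le_sum_abs _ _).trans ?_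
  calc ∑ p ∈ (range (⌊y⌋₊ + 1)).filter Nat.Prime, |Real.cos (t * Real.log p) / Real.sqrt p| ≤
      ∑ _p ∈ (range (⌊y⌋₊ + 1)).filter Nat.Prime, (1:ℝ) := by
        refine sum_le_sum fun p hp => ?_
        rw [mem_filter] at hp
        exact term_le hp.2.one_lt.le _
    _ = (((range (⌊y⌋₊ + 1)).filter Nat.Prime).card : ℝ) := by simp
    _ ≤ ((⌊y⌋₊ + 1 : ℕ) : ℝ) := by
        have := card_filter_le (range (⌊y⌋₊ + 1)) Nat.Prime
        rw [card_range] at this
        exact_mod_cast this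
    _ ≤ 2 * y := by
        have := Nat.floor_le (by linarith : 0 ≤ y)
        push_cast
        linarith

lemma PS_cont (y : ℝ) : Continuous (PS y) := by
  unfold PS
  fun_prop

/-- the blocks cover the primes -/
lemma cover {y : ℝ} (hy : 144 ≤ y) {J : ℕ} (hJ : bb y J < 144) (p : ℕ) (hp : p.Prime) (h1 : 144 ≤ p)
    (h2 : (p:ℝ) ≤ y) : ∃ i < J, p ∈ II y i := by
  have h3 : (144:ℝ) ≤ p := by exact_mod_cast h1
  obtain ⟨i, hi, h4, h5⟩ := Pool.Agent.Y755.find_block (y := y) (J := J) (x := p) (by linarith)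
    (by rw [bb_zero (by linarith)]; exact h2)
  exact ⟨i, hi, by rw [mem_II]; exact ⟨hp, h1, h4, h5⟩⟩

end Pool.Agent.H998_TS
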